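import Mathlib
import Pool.Agent.Lib.MP_77ae25_co.Defs
import Pool.Agent.Lib.MP_77ae25_co.Free
import Pool.Agent.Lib.MP_77ae25_co.Minor

/-!
# MP_77ae25_co, Q1

There is a (theta, prism)-free graph that has `K_{3,4}` as an induced minor: an explicit graph on
`15` vertices and `28` edges, found by computer search.
-/

namespace Pool.Agent.Results.MP_77ae25_co.Main

open Pool.Agent.Lib.MP_77ae25_co

/-- A (theta, prism)-free graph on `15` vertices having `K_{3,4}` as an induced minor. -/
theorem result : ∃ G : SimpleGraph (Fin 15), ThetaPrismFree G ∧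
    IsInducedMinor (completeBipartiteGraph (Fin 3) (Fin 4)) G :=
  ⟨G15, free, minor⟩

end Pool.Agent.Results.MP_77ae25_co.Main
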